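import Pool.Agent.H14.TOW.TargetsM

/-!
TIN: bases stay independent at a totally invariant ideal (row TIN of the board tow_modules).
-/

set_option autoImplicit false

open MvPolynomial
open Pool.Agent.H12.ZD (pmap)
open Pool.Agent.H18.HIT Pool.Agent.H18.HX Pool.Agent.H18.VP Pool.Agent.H18.VZ Pool.Agent.H14.TOW

namespace Pool.Agent.H89.TOW

/-- common denominators -/
theorem tin_common {S R : Type} [CommRing S] [Field R] (α : S →+* R) {ι : Type} [Fintype ι]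
    (hα : ∀ a : R, ∃ A B, α B ≠ 0 ∧ a * α B = α A) (f : ι → R) :
    ∃ (D : S) (c : ι → S), α D ≠ 0 ∧ ∀ i, f i * α D = α (c i) := by
  classical
  choose A B hB hA using fun i => hα (f i)
  refine ⟨∏ i, B i, fun i => A i * ∏ j ∈ Finset.univ.erase i, B j, ?_, fun i => ?_⟩
  · rw [map_prod]
    exact Finset.prod_ne_zero_iff.2 fun i _ => hB i
  · rw [map_mul, ← hA, ← Finset.mul_prod_erase Finset.univ B (Finset.mem_univ i), map_mul]
    ring

/-- common homogeneous denominators -/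
theorem tin_hom {k K : Type} [Field k] [Field K] [Algebra k K] {N : ℕ} (y : Fin N → K) {e : ℕ}
    (β : Fin e → K) (h : ∀ a : K, ∃ (m : ℕ) (A B : Po N k), A.IsHomogeneous m ∧
      B.IsHomogeneous m ∧ aeval y B ≠ 0 ∧ a * aeval y B = aeval y A) :
    ∃ (m : ℕ) (A : Fin e → Po N k) (B : Po N k), (∀ j, (A j).IsHomogeneous m) ∧
      B.IsHomogeneous m ∧ aeval y B ≠ 0 ∧ ∀ j, β j * aeval y B = aeval y (A j) := by
  classical
  choose m A B hA hB h0 h1 using fun i => h (β i)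
  refine ⟨∑ i, m i, fun i => A i * ∏ j ∈ Finset.univ.erase i, B j, ∏ i, B i, ?_, ?_, ?_, ?_⟩
  · intro i
    have := (hA i).mul (IsHomogeneous.prod (Finset.univ.erase i) B m fun j _ => hB j)
    rwa [Finset.add_sum_erase _ _ (Finset.mem_univ i)] at this
  · exact IsHomogeneous.prod _ _ _ fun j _ => hB j
  · rw [map_prod]
    exact Finset.prod_ne_zero_iff.2 fun i _ => h0 i
  · intro i
    rw [map_mul, ← h1, ← Finset.mul_prod_erase Finset.univ B (Finset.mem_univ i), map_mul]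
    ring

theorem tin_alpha {k K : Type} [Field k] [Field K] [Algebra k K] {N : ℕ} (y : Fin N → K)
    (A : Po N k) (m : ℕ) (hA : A.IsHomogeneous m) :
    aeval (fun i => RatFunc.C (y i) * (RatFunc.X : RatFunc K)) A =
      RatFunc.C (aeval y A) * (RatFunc.X : RatFunc K) ^ m := by
  rw [aeval_def, aeval_def, eval₂_eq', eval₂_eq', map_sum, Finset.sum_mul]
  refine Finset.sum_congr rfl fun s hs => ?_
  have h1 : ∑ i, s i = m := by
    have := hA (mem_support_iff.1 hs)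
    rw [← this, Finsupp.weight_apply, Finsupp.sum_fintype _ _ (fun _ => by simp)]
    simp
  rw [map_mul, map_prod]
  simp only [mul_pow, Finset.prod_mul_distrib, Finset.prod_pow_eq_pow_sum, h1, map_pow]
  rw [IsScalarTower.algebraMap_apply k K (RatFunc K), RatFunc.algebraMap_eq_C]
  ring

theorem pf_TIN (h1 : T_LIN) (h2 : T_DIC) (h3 : T_CON) (h4 : T_ALF) : T_TIN := by
  classical
  intro k K _ _ _ σ n r d ec e P θ Δ F y β hM hB hI hS
  have hd : 1 ≤ d := le_trans one_le_two hM.two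
  obtain ⟨Φ, hΦC, hΦX, hcon⟩ := h3 k K σ (aeval y (F (Fin.succ 0))) d hM.ne hd
  obtain ⟨α, hα⟩ : ∃ α : Po (n + 1 + 1) k →ₐ[k] RatFunc K,
    α = aeval (fun i => RatFunc.C (y i) * RatFunc.X) := ⟨_, rfl⟩
  obtain ⟨a1, a2, a3'⟩ := h4 k K σ n r d P F y hM α hα
  have a3 := a3' Φ hΦC hΦX
  have gI := (hcon e β).1 hI
  have gS := (hcon e β).2 hS
  have hΔ : α Δ ≠ 0 := fun h => hB.ne ((a1 Δ).1 h)
  have hgen : ∀ u, Cmb Φ (fun i : Fin ec => α (θ ^ (i : ℕ))) (α u) := by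
    intro u
    obtain ⟨M, c, hc⟩ := hB.gen u
    have e1 := (a1 _).2 hc
    rw [map_sub, map_mul, map_pow, ← a3 Δ, map_sum, sub_eq_zero] at e1
    have e2 : Φ (α Δ) ≠ 0 := (map_ne_zero Φ).2 hΔ
    refine ⟨fun i => α (c i) / α Δ ^ M, ?_⟩
    apply mul_left_cancel₀ (pow_ne_zero M e2)
    rw [e1, Finset.mul_sum]
    refine Finset.sum_congr rfl fun i _ => ?_
    rw [map_div₀, map_pow Φ, a3 (c i), map_mul]
    field_simp
  have hspan : ∀ a, Cmb Φ (fun i : Fin ec => α (θ ^ (i : ℕ))) a := by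
    intro a
    obtain ⟨A, B, hB0, hAB⟩ := a2 a
    have h5 := h2 k (RatFunc K) Φ (Fin ec) (fun i => α (θ ^ (i : ℕ))) α.range
      (fun i => ⟨_, rfl⟩) (by rintro _ ⟨u, rfl⟩; exact hgen u) (α A) ⟨A, rfl⟩ (α B) ⟨B, rfl⟩ hB0
    rwa [← hAB, mul_div_cancel_right₀ _ hB0] at h5
  have hcard : e * d ≤ ec := by
    have h5 := (h1 k (RatFunc K) Φ (Fin ec) (Fin e × Fin d) _ _ (fun i => hspan _) gI).1
    rwa [Fintype.card_prod, Fintype.card_fin, Fintype.card_fin, Fintype.card_fin] at h5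
  choose f hf using fun i : Fin ec => gS (α (θ ^ (i : ℕ)))
  obtain ⟨D0, c, hD0, hc⟩ := tin_common (α : Po (n + 1 + 1) k →+* RatFunc K) a2
    (fun q : Fin ec × (Fin e × Fin d) => f q.1 q.2)
  obtain ⟨m, A, B, hA, hBh, hB0, hAB⟩ := tin_hom y β hM.gen
  have hC0 : RatFunc.C (aeval y B) ≠ 0 := (map_ne_zero _).2 hB0
  have hαB : α B ≠ 0 := by
    rw [hα, tin_alpha y B m hBh]
    exact mul_ne_zero hC0 (pow_ne_zero _ RatFunc.X_ne_zero)
  have hαA : ∀ j, RatFunc.C (β j) * α B = α (A j) := by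
    intro j
    rw [hα, tin_alpha y B m hBh, tin_alpha y (A j) m (hA j), ← hAB, map_mul]
    ring
  have hαX : α (X (Fin.succ 0)) = RatFunc.X := by
    rw [hα, aeval_X, hM.y1, map_one, one_mul]
  have hrel : ∀ i : Fin ec, P ∣ aeval F D0 * B * θ ^ (i : ℕ) -
      ∑ p : Fin e × Fin d, A p.1 * X (Fin.succ 0) ^ (p.2 : ℕ) * aeval F (c (i, p)) := by
    intro i
    rw [← a1, map_sub, map_mul, map_mul, ← a3 D0, hf i, map_sum, sub_eq_zero, Finset.mul_sum]
    refine Finset.sum_congr rfl fun p _ => ?_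
    have h5 : f i p * α D0 = α (c (i, p)) := hc (i, p)
    rw [map_mul, map_mul, map_pow, hαX, ← hαA, ← a3, ← h5, map_mul Φ]
    ring
  refine ⟨D0 * B, ?_, ?_⟩
  · rw [← a1, map_mul]
    exact mul_ne_zero hD0 hαB
  intro V _ hPV hT hV hD κ _ _ ψ τ p1 p2 p3 δ hδ
  have hD0V : D0 ∉ V := fun h => hD (V.mul_mem_right _ h)
  have hBV : B ∉ V := fun h => hD (V.mul_mem_left _ h)
  have hψB : ψ B ≠ 0 := fun h => hBV ((p1 B).1 h)
  have hψD : ψ D0 ≠ 0 := fun h => hD0V ((p1 D0).1 h)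
  have hτD : τ (ψ D0) ≠ 0 := (map_ne_zero τ).2 hψD
  have hδ' : ∀ j, δ j * ψ B = ψ (A j) := fun j => hδ j m (A j) B (hA j) hBh hBV (hAB j)
  have hcmb : ∀ i : Fin ec, Cmb τ
      (fun p : Fin e × Fin d => δ p.1 * ψ (X (Fin.succ 0)) ^ (p.2 : ℕ)) (ψ (θ ^ (i : ℕ))) := by
    intro i
    refine ⟨fun p => ψ (c (i, p)) / ψ D0, ?_⟩
    obtain ⟨q, hq⟩ := hrel i
    have e1 := congrArg ψ hq
    rw [map_sub, map_mul ψ P q, (p1 P).2 hPV, zero_mul, sub_eq_zero, map_mul, map_mul, ← p2 D0,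
      map_sum] at e1
    apply mul_left_cancel₀ (mul_ne_zero hτD hψB)
    rw [e1, Finset.mul_sum]
    refine Finset.sum_congr rfl fun p _ => ?_
    rw [map_mul, map_mul, map_pow, ← hδ', ← p2, map_div₀]
    field_simp
  have hind : Ind τ (fun i : Fin ec => ψ (θ ^ (i : ℕ))) := by
    intro a ha
    obtain ⟨b, c', hb, hc'⟩ := tin_common (ψ : Po (n + 1 + 1) k →+* κ) p3 a
    have hb' : ψ b ≠ 0 := hb
    have hc'' : ∀ i, a i * ψ b = ψ (c' i) := hc'
    have e1 : ψ (∑ i : Fin ec, θ ^ (i : ℕ) * aeval F (c' i)) = 0 := by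
      have e0 : ψ (∑ i : Fin ec, θ ^ (i : ℕ) * aeval F (c' i)) =
          (∑ i : Fin ec, ψ (θ ^ (i : ℕ)) * τ (a i)) * τ (ψ b) := by
        rw [map_sum, Finset.sum_mul]
        refine Finset.sum_congr rfl fun i _ => ?_
        rw [map_mul, ← p2, ← hc'' i, map_mul τ]
        ring
      rw [e0, ha, zero_mul]
    have e2 := hT.ind c' ((p1 _).1 e1)
    intro i
    have e3 := hc'' i
    rw [(p1 _).2 (e2 i)] at e3
    exact (mul_eq_zero.1 e3).resolve_right hb'
  have hI2 := ((h1 k κ τ (Fin e × Fin d) (Fin ec) _ _ hcmb hind).2 (by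
    rwa [Fintype.card_prod, Fintype.card_fin, Fintype.card_fin, Fintype.card_fin])).1
  intro c0 hc0 j
  have h6 := hI2 (fun p => if (p.2 : ℕ) = 0 then c0 p.1 else 0) (by
    rw [Fintype.sum_prod_type]
    refine Eq.trans ?_ hc0
    refine Finset.sum_congr rfl fun j _ => ?_
    rw [Finset.sum_eq_single (⟨0, hd⟩ : Fin d)]
    · simp
    · intro l _ hl
      have : (l : ℕ) ≠ 0 := fun h => hl (Fin.ext h)
      change _ * τ (if (l : ℕ) = 0 then c0 j else 0) = 0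
      rw [if_neg this, map_zero, mul_zero]
    · intro h
      exact absurd (Finset.mem_univ _) h) (j, ⟨0, hd⟩)
  simpa using h6

end Pool.Agent.H89.TOW
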